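import Pool.Agent.H84.Sy.Defs

/-!
# Smooth spheroids in the group of compactly supported symplectomorphisms: definitions
-/

set_option autoImplicit false

open Set Filter Topology Metric Function
open scoped ContDiff NNReal

noncomputable section

namespace Pool.Agent.X277.Sy

variable {n : ℕ}

section Family

variable {P : Type} [NormedAddCommGroup P] [NormedSpace ℝ P]

/-- `θ` is a smooth family. -/
def IsSmoothFamily (θ : P → SympCt n) : Prop :=
  ContDiff ℝ ∞ (fun p : P × E n => (θ p.1).map p.2)

theorem isSmoothFamily_const (φ : SympCt n) : IsSmoothFamily (fun _ : P => φ) :=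
  φ.isSymp.smooth.comp contDiff_snd

end Family

/-- A smooth `k`-spheroid in `G`: a smooth map from `ℝ^k` to `G`, equal to `1` at infinity, with
supports in one ball. -/
structure Spheroid (k n : ℕ) where
  /-- the family -/
  fam : EuclideanSpace ℝ (Fin k) → SympCt n
  smooth : IsSmoothFamily fam
  bounded : ∃ r : ℝ, (∀ s, r ≤ ‖s‖ → fam s = 1) ∧ ∀ s, SupportedIn (closedBall 0 r) (fam s).map

/-- A homotopy of spheroids, with supports in the set `K`. -/
def HomotopicIn {k n : ℕ} (K : Set (E n)) (f g : Spheroid k n) : Prop :=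
  ∃ F : ℝ × EuclideanSpace ℝ (Fin k) → SympCt n, IsSmoothFamily F ∧ (∀ s, F (0, s) = f.fam s) ∧
    (∀ s, F (1, s) = g.fam s) ∧ (∃ r : ℝ, ∀ t s, r ≤ ‖s‖ → F (t, s) = 1) ∧
    ∀ q, SupportedIn K (F q).map

/-- The spheroids `f` and `g` are homotopic. -/
def Homotopic {k n : ℕ} (f g : Spheroid k n) : Prop := ∃ K : Set (E n), IsCompact K ∧
  HomotopicIn K f g

/-- The constant spheroid. -/
def trivialSpheroid (k n : ℕ) : Spheroid k n where
  fam _ := 1
  smooth := isSmoothFamily_const 1
  bounded := ⟨0, fun _ _ => rfl, fun _ _ _ => rfl⟩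

/-- `π_k` of the group of compactly supported symplectomorphisms of `ℝ^{2n}` is trivial: every
smooth `k`-spheroid is smoothly contractible. -/
def PiTrivial (k n : ℕ) : Prop := ∀ f : Spheroid k n, Homotopic f (trivialSpheroid k n)

end Pool.Agent.X277.Sy
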