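import Mathlib

/-!
# Joint smoothness of inverses
-/

set_option autoImplicit false

open Set Filter Topology Metric Function
open scoped ContDiff NNReal

noncomputable section

namespace Pool.Agent.X277.Sy

theorem joint_inverse {Q V : Type*} [NormedAddCommGroup Q] [NormedSpace ℝ Q] [CompleteSpace Q]
    [NormedAddCommGroup V] [NormedSpace ℝ V] [CompleteSpace V]
    {F : Q × V → V} (hF : ContDiff ℝ ∞ F) (L : Q → V → (V ≃L[ℝ] V))
    (hL : ∀ q x, HasFDerivAt (fun x => F (q, x)) ((L q x : V ≃L[ℝ] V) : V →L[ℝ] V) x)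
    {G : Q × V → V} (h1 : ∀ q x, G (q, F (q, x)) = x) (h2 : ∀ q x, F (q, G (q, x)) = x) :
    ContDiff ℝ ∞ G := by
  let A : Q × V → Q × V := fun p => (p.1, F p)
  let B : Q × V → Q × V := fun p => (p.1, G p)
  have hA : ContDiff ℝ ∞ A := contDiff_fst.prodMk hF
  have hAB : ∀ p, A (B p) = p := by
    rintro ⟨t, x⟩
    show (t, F (t, G (t, x))) = (t, x)
    rw [h2]
  have hBA : ∀ p, B (A p) = p := by
    rintro ⟨t, x⟩
    show (t, G (t, F (t, x))) = (t, x)
    rw [h1]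
  let A' : Q × V → (Q × V) ≃L[ℝ] (Q × V) := fun p =>
    ContinuousLinearEquiv.skewProd (ContinuousLinearEquiv.refl ℝ Q)
      (L p.1 p.2) ((fderiv ℝ F p).comp (ContinuousLinearMap.inl ℝ Q V))
  have hA' : ∀ p, HasFDerivAt A ((A' p : (Q × V) ≃L[ℝ] (Q × V)) :
      (Q × V) →L[ℝ] (Q × V)) p := by
    rintro ⟨t, w⟩
    have h3 : HasFDerivAt F (fderiv ℝ F (t, w)) (t, w) :=
      (hF.differentiable (by simp) (t, w)).hasFDerivAt
    have h4 := (hasFDerivAt_fst (𝕜 := ℝ) (E := Q) (F := V) (p := (t, w))).prodMk h3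
    refine h4.congr_fderiv ?_
    refine ContinuousLinearMap.ext fun ⟨r, v⟩ => Prod.ext rfl ?_
    show fderiv ℝ F (t, w) (r, v) = L t w v + fderiv ℝ F (t, w) (r, 0)
    have h5 : HasFDerivAt (fun x => F (t, x))
        ((fderiv ℝ F (t, w)).comp (ContinuousLinearMap.inr ℝ Q V)) w :=
      HasFDerivAt.comp w h3 (hasFDerivAt_prodMk_right t w)
    have h6 := (hL t w).unique h5
    have h7 : L t w v = fderiv ℝ F (t, w) (0, v) := DFunLike.congr_fun h6 v
    rw [h7, ← map_add]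
    simp
  have hopen : IsOpenMap A := isOpenMap_of_hasStrictFDerivAt_equiv (f' := A')
    fun p => hA.contDiffAt.hasStrictFDerivAt' (hA' p) (by simp)
  let Ah : (Q × V) ≃ₜ (Q × V) :=
    Equiv.toHomeomorphOfContinuousOpen ⟨A, B, hBA, hAB⟩ hA.continuous hopen
  have hB : ContDiff ℝ ∞ B := Homeomorph.contDiff_symm Ah (f₀' := A') hA' hA
  exact contDiff_snd.comp hB

end Pool.Agent.X277.Sy
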