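import Pool.Agent.H84.Sy.Defs
import Pool.Agent.H84.Sy.Inv
import Pool.Agent.H84.Sy.Joint

/-!
# Symplectomorphisms whose derivatives have no negative eigenvalues
-/

set_option autoImplicit false

open Set Filter Topology Metric Function
open scoped ContDiff NNReal

noncomputable section

namespace Pool.Agent.X277.Sy

variable {n : ℕ}

/-- The standard symplectic form as a bilinear form. -/
def om (n : ℕ) : E n →ₗ[ℝ] E n →ₗ[ℝ] ℝ :=
  LinearMap.mk₂ ℝ omega
    (fun u v w => by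
      unfold omega
      rw [← Finset.sum_add_distrib]
      refine Finset.sum_congr rfl fun i _ => ?_
      simp only [PiLp.add_apply]
      ring)
    (fun c u v => by
      unfold omega
      rw [smul_eq_mul, Finset.mul_sum]
      refine Finset.sum_congr rfl fun i _ => ?_
      simp only [PiLp.smul_apply, smul_eq_mul]
      ring)
    (fun u v w => by
      unfold omega
      rw [← Finset.sum_add_distrib]
      refine Finset.sum_congr rfl fun i _ => ?_
      simp only [PiLp.add_apply]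
      ring)
    (fun c u v => by
      unfold omega
      rw [smul_eq_mul, Finset.mul_sum]
      refine Finset.sum_congr rfl fun i _ => ?_
      simp only [PiLp.smul_apply, smul_eq_mul]
      ring)

theorem om_apply (u v : E n) : om n u v = omega u v := rfl

/-- nondegeneracy -/
theorem omega_nondeg {u : E n} (h : ∀ v, omega u v = 0) : u = 0 := by
  ext ⟨i, j⟩
  have h0 := h (EuclideanSpace.single (i, 0) 1)
  have h1 := h (EuclideanSpace.single (i, 1) 1)
  unfold omega at h0 h1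
  rw [Finset.sum_eq_single i] at h0 h1
  · fin_cases j
    · simpa using h1
    · simpa using h0
  · intro k _ hk
    simp [hk]
  · intro hi; exact absurd (Finset.mem_univ _) hi
  · intro k _ hk
    simp [hk]
  · intro hi; exact absurd (Finset.mem_univ _) hi

theorem symp_inj {T : E n →L[ℝ] E n} (h : ∀ u v, omega (T u) (T v) = omega u v) {u : E n}
    (hu : T u = 0) : u = 0 := by
  apply omega_nondeg
  intro v
  rw [← h u v, hu, ← om_apply, map_zero, LinearMap.zero_apply]

/-- the convex combination with the identity -/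
def aff (θ : E n → E n) (l : ℝ) (x : E n) : E n := (1 - l) • x + l • θ x

/-- its derivative -/
def affD (T : E n →L[ℝ] E n) (l : ℝ) : E n →L[ℝ] E n :=
  (1 - l) • ContinuousLinearMap.id ℝ (E n) + l • T

theorem affD_apply (T : E n →L[ℝ] E n) (l : ℝ) (u : E n) :
    affD T l u = (1 - l) • u + l • T u := rfl

theorem aff_smooth {θ : E n → E n} (hθ : ContDiff ℝ ∞ θ) (l : ℝ) : ContDiff ℝ ∞ (aff θ l) := by
  have h1 : ContDiff ℝ ∞ (fun x : E n => (1 - l) • x) := contDiff_id.const_smul (1 - l)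
  have h2 : ContDiff ℝ ∞ (fun x : E n => l • θ x) := hθ.const_smul l
  exact h1.add h2

theorem aff_deriv {θ : E n → E n} (hθ : ContDiff ℝ ∞ θ) (l : ℝ) (x : E n) :
    HasFDerivAt (aff θ l) (affD (fderiv ℝ θ x) l) x :=
  ((hasFDerivAt_id x).const_smul (1 - l)).add
    ((hθ.differentiable (by simp) x).hasFDerivAt.const_smul l)

/-- no negative eigenvalues -/
def NoNeg (T : E n →L[ℝ] E n) : Prop := ∀ (m : ℝ) (v : E n), m < 0 → T v = m • v → v = 0

theorem affD_inj {T : E n →L[ℝ] E n} (h : ∀ u v, omega (T u) (T v) = omega u v) (hT : NoNeg T)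
    {l : ℝ} (hl : l ∈ Icc (0 : ℝ) 1) : Injective (affD T l) := by
  rw [injective_iff_map_eq_zero]
  intro u hu
  rw [affD_apply] at hu
  rcases hl.1.eq_or_lt with h0 | h0
  · rw [← h0, sub_zero, one_smul, zero_smul, add_zero] at hu
    exact hu
  · rcases hl.2.eq_or_lt with h1 | h1
    · rw [h1, sub_self, zero_smul, zero_add, one_smul] at hu
      exact symp_inj h hu
    · refine hT (-((1 - l) / l)) u (by
        have : 0 < (1 - l) / l := div_pos (by linarith) h0
        linarith) ?_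
      have h2 : l • T u = -((1 - l) • u) := by
        rw [eq_neg_iff_add_eq_zero, add_comm]
        exact hu
      have h3 : T u = l⁻¹ • (l • T u) := by rw [smul_smul, inv_mul_cancel₀ h0.ne', one_smul]
      rw [h3, h2, smul_neg, smul_smul, neg_smul, div_eq_inv_mul]

/-- the derivative as an equivalence -/
def affE (T : E n →L[ℝ] E n) (h : ∀ u v, omega (T u) (T v) = omega u v) (hT : NoNeg T)
    {l : ℝ} (hl : l ∈ Icc (0 : ℝ) 1) : E n ≃L[ℝ] E n :=
  (LinearEquiv.ofInjectiveEndo (affD T l : E n →ₗ[ℝ] E n) (affD_inj h hT hl)).toContinuousLinearEquiv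

theorem affE_coe (T : E n →L[ℝ] E n) (h : ∀ u v, omega (T u) (T v) = omega u v) (hT : NoNeg T)
    {l : ℝ} (hl : l ∈ Icc (0 : ℝ) 1) :
    ((affE T h hT hl : E n ≃L[ℝ] E n) : E n →L[ℝ] E n) = affD T l := by
  ext x
  rfl

theorem aff_bij (hn : 0 < n) {θ : E n → E n} (hθ : ContDiff ℝ ∞ θ)
    (hsy : ∀ x u v, omega (fderiv ℝ θ x u) (fderiv ℝ θ x v) = omega u v)
    (hneg : ∀ x, NoNeg (fderiv ℝ θ x)) {K : Set (E n)} (hK : IsCompact K)
    (hfix : ∀ x, x ∉ K → θ x = x) {l : ℝ} (hl : l ∈ Icc (0 : ℝ) 1) :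
    Bijective (aff θ l) ∧ IsOpenMap (aff θ l) := by
  have hstrict : ∀ x, HasStrictFDerivAt (aff θ l)
      ((affE (fderiv ℝ θ x) (hsy x) (hneg x) hl : E n ≃L[ℝ] E n) : E n →L[ℝ] E n) x := by
    intro x
    refine (aff_smooth hθ l).contDiffAt.hasStrictFDerivAt' ?_ (by simp)
    rw [affE_coe]
    exact aff_deriv hθ l x
  have hopen : IsOpenMap (aff θ l) := isOpenMap_of_hasStrictFDerivAt_equiv hstrict
  have : Nonempty (Fin n × Fin 2) := ⟨(⟨0, hn⟩, 0)⟩
  have : NoncompactSpace (E n) := NormedSpace.noncompactSpace ℝ (E n)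
  refine ⟨bijective_of_local (aff_smooth hθ l).continuous hopen (fun x => ?_) hK
    fun x hx => ?_, hopen⟩
  · have h1 := (hstrict x).toOpenPartialHomeomorph (aff θ l)
    refine ⟨((hstrict x).toOpenPartialHomeomorph (aff θ l)).source,
      ((hstrict x).toOpenPartialHomeomorph (aff θ l)).open_source,
      (hstrict x).mem_toOpenPartialHomeomorph_source, ?_⟩
    exact ((hstrict x).toOpenPartialHomeomorph (aff θ l)).injOn
  · show (1 - l) • x + l • θ x = x
    rw [hfix x hx, ← add_smul, sub_add_cancel, one_smul]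

/-- the homeomorphism -/
theorem aff_homeo (hn : 0 < n) {θ : E n → E n} (hθ : ContDiff ℝ ∞ θ)
    (hsy : ∀ x u v, omega (fderiv ℝ θ x u) (fderiv ℝ θ x v) = omega u v)
    (hneg : ∀ x, NoNeg (fderiv ℝ θ x)) {K : Set (E n)} (hK : IsCompact K)
    (hfix : ∀ x, x ∉ K → θ x = x) {l : ℝ} (hl : l ∈ Icc (0 : ℝ) 1) :
    ∃ a : E n ≃ₜ E n, (∀ x, a x = aff θ l x) ∧ ContDiff ℝ ∞ a.symm := by
  obtain ⟨hb, ho⟩ := aff_bij hn hθ hsy hneg hK hfix hl
  refine ⟨(Equiv.ofBijective _ hb).toHomeomorphOfContinuousOpen (aff_smooth hθ l).continuous ho,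
    fun x => rfl, ?_⟩
  refine Homeomorph.contDiff_symm _
    (f₀' := fun x => affE (fderiv ℝ θ x) (hsy x) (hneg x) hl) (fun x => ?_) (aff_smooth hθ l)
  rw [affE_coe]
  exact aff_deriv hθ l x

/-- the parameter -/
def lam (t : ℝ) : ℝ := (1 - Real.smoothTransition t) / 2

theorem lam_smooth : ContDiff ℝ ∞ lam :=
  (contDiff_const.sub Real.smoothTransition.contDiff).div_const 2

theorem lam_mem (t : ℝ) : lam t ∈ Icc (0 : ℝ) 1 := by
  have h1 := Real.smoothTransition.nonneg t
  have h2 := Real.smoothTransition.le_one t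
  unfold lam
  constructor <;> linarith

theorem lam_mem' (t : ℝ) : 1 - lam t ∈ Icc (0 : ℝ) 1 := by
  have := lam_mem t
  exact ⟨by linarith [this.2], by linarith [this.1]⟩

/-- the form on the convex combinations -/
theorem affD_omega {T : E n →L[ℝ] E n} (h : ∀ u v, omega (T u) (T v) = omega u v) (l : ℝ)
    (u v : E n) : omega (affD T (1 - l) u) (affD T (1 - l) v) = omega (affD T l u) (affD T l v) := by
  have h1 := h u v
  simp only [← om_apply] at h1 ⊢
  simp only [affD_apply, map_add, map_smul, LinearMap.add_apply, LinearMap.smul_apply, smul_eq_mul,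
    h1]
  ring

theorem lam_half (t : ℝ) : lam t ≤ 1 / 2 := by
  have h1 := Real.smoothTransition.nonneg t
  unfold lam
  linarith

/-- The space of the symplectomorphisms whose differentials have no negative eigenvalues contracts:
smooth families version. -/
theorem contract {P : Type*} [NormedAddCommGroup P] [NormedSpace ℝ P] [CompleteSpace P] (hn : 0 < n)
    {θ : P → E n → E n} (hθ : ContDiff ℝ ∞ (fun p : P × E n => θ p.1 p.2))
    (hsy : ∀ s x u v, omega (fderiv ℝ (θ s) x u) (fderiv ℝ (θ s) x v) = omega u v)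
    (hneg : ∀ s x, NoNeg (fderiv ℝ (θ s) x)) {K : P → Set (E n)} (hK : ∀ s, IsCompact (K s))
    (hfix : ∀ s x, x ∉ K s → θ s x = x) :
    ∃ Θ : ℝ → P → E n → E n, ContDiff ℝ ∞ (fun p : (ℝ × P) × E n => Θ p.1.1 p.1.2 p.2) ∧
      (∀ t s, IsSymplectomorphism (Θ t s)) ∧ (∀ t s x, NoNeg (fderiv ℝ (Θ t s) x)) ∧
      (∀ t s x, θ s x = x → Θ t s x = x) ∧ (∀ s x, Θ 0 s x = x) ∧ ∀ s x, Θ 1 s x = θ s x := by
  have hθs : ∀ s, ContDiff ℝ ∞ (θ s) := fun s => hθ.comp (contDiff_const.prodMk contDiff_id)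
  choose a ha has using fun (s : P) (l : Icc (0 : ℝ) 1) =>
    aff_homeo hn (hθs s) (hsy s) (hneg s) (hK s) (hfix s) l.2
  -- joint smoothness of the inverse
  have hF : ContDiff ℝ ∞ (fun p : (ℝ × P) × E n => aff (θ p.1.2) (lam p.1.1) p.2) := by
    refine ContDiff.add ?_ ?_
    · exact (contDiff_const.sub (lam_smooth.comp (contDiff_fst.comp contDiff_fst))).smul
        contDiff_snd
    · exact (lam_smooth.comp (contDiff_fst.comp contDiff_fst)).smul
        (hθ.comp ((contDiff_snd.comp contDiff_fst).prodMk contDiff_snd))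
  have hBs : ContDiff ℝ ∞ (fun p : (ℝ × P) × E n => (a p.1.2 ⟨lam p.1.1, lam_mem p.1.1⟩).symm p.2) := by
    refine joint_inverse hF
      (fun q x => affE (fderiv ℝ (θ q.2) x) (hsy q.2 x) (hneg q.2 x) (lam_mem q.1)) ?_ ?_ ?_
    · intro q x
      rw [affE_coe]
      exact aff_deriv (hθs q.2) (lam q.1) x
    · intro q x
      show (a q.2 ⟨lam q.1, lam_mem q.1⟩).symm (aff (θ q.2) (lam q.1) x) = x
      rw [← ha q.2 ⟨lam q.1, lam_mem q.1⟩, Homeomorph.symm_apply_apply]
    · intro q x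
      show aff (θ q.2) (lam q.1) ((a q.2 ⟨lam q.1, lam_mem q.1⟩).symm x) = x
      rw [← ha q.2 ⟨lam q.1, lam_mem q.1⟩, Homeomorph.apply_symm_apply]
  have haffj : ContDiff ℝ ∞ (fun p : (ℝ × P) × E n => aff (θ p.1.2) (1 - lam p.1.1) p.2) := by
    refine ContDiff.add ?_ ?_
    · exact (contDiff_const.sub (contDiff_const.sub
        (lam_smooth.comp (contDiff_fst.comp contDiff_fst)))).smul contDiff_snd
    · exact (contDiff_const.sub (lam_smooth.comp (contDiff_fst.comp contDiff_fst))).smul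
        (hθ.comp ((contDiff_snd.comp contDiff_fst).prodMk contDiff_snd))
  have hder : ∀ t s x w, aff (θ s) (lam t) w = x → ∀ z,
      fderiv ℝ (fun x => aff (θ s) (1 - lam t) ((a s ⟨lam t, lam_mem t⟩).symm x)) x
          (affD (fderiv ℝ (θ s) w) (lam t) z) = affD (fderiv ℝ (θ s) w) (1 - lam t) z := by
    intro t s x w hx z
    have hs1 : ContDiff ℝ ∞ ((a s ⟨lam t, lam_mem t⟩).symm : E n → E n) := has _ _
    have d1 : HasFDerivAt (aff (θ s) (lam t)) (affD (fderiv ℝ (θ s) w) (lam t)) w :=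
      aff_deriv (hθs s) _ w
    have d2 : HasFDerivAt (aff (θ s) (1 - lam t)) (affD (fderiv ℝ (θ s) w) (1 - lam t)) w :=
      aff_deriv (hθs s) _ w
    have hsm : ContDiff ℝ ∞ (fun x => aff (θ s) (1 - lam t) ((a s ⟨lam t, lam_mem t⟩).symm x)) :=
      (aff_smooth (hθs s) _).comp hs1
    have d3 : HasFDerivAt (fun x => aff (θ s) (1 - lam t) ((a s ⟨lam t, lam_mem t⟩).symm x))
        (fderiv ℝ (fun x => aff (θ s) (1 - lam t) ((a s ⟨lam t, lam_mem t⟩).symm x)) x)
        (aff (θ s) (lam t) w) := by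
      rw [hx]
      exact (hsm.differentiable (by simp) x).hasFDerivAt
    have d4 := d3.comp w d1
    have he : (fun x => aff (θ s) (1 - lam t) ((a s ⟨lam t, lam_mem t⟩).symm x)) ∘
        aff (θ s) (lam t) = aff (θ s) (1 - lam t) := by
      funext y
      show aff (θ s) (1 - lam t) ((a s ⟨lam t, lam_mem t⟩).symm (aff (θ s) (lam t) y)) = _
      rw [← ha s ⟨lam t, lam_mem t⟩, Homeomorph.symm_apply_apply]
    rw [he] at d4
    exact DFunLike.congr_fun (d4.unique d2) z
  have hsurj : ∀ t s w u, ∃ u', affD (fderiv ℝ (θ s) w) (lam t) u' = u := by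
    intro t s w u
    refine ⟨(affE (fderiv ℝ (θ s) w) (hsy s w) (hneg s w) (lam_mem t)).symm u, ?_⟩
    rw [← affE_coe (fderiv ℝ (θ s) w) (hsy s w) (hneg s w) (lam_mem t)]
    exact (affE (fderiv ℝ (θ s) w) (hsy s w) (hneg s w) (lam_mem t)).apply_symm_apply u
  refine ⟨fun t s x => aff (θ s) (1 - lam t) ((a s ⟨lam t, lam_mem t⟩).symm x), ?_, ?_, ?_, ?_,
    ?_, ?_⟩
  · exact haffj.comp (contDiff_fst.prodMk hBs)
  · intro t s
    have hs1 : ContDiff ℝ ∞ ((a s ⟨lam t, lam_mem t⟩).symm : E n → E n) := has _ _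
    have hs2 : ContDiff ℝ ∞ ((a s ⟨1 - lam t, lam_mem' t⟩).symm : E n → E n) := has _ _
    refine ⟨(aff_smooth (hθs s) _).comp hs1,
      ⟨fun x => aff (θ s) (lam t) ((a s ⟨1 - lam t, lam_mem' t⟩).symm x),
        (aff_smooth (hθs s) _).comp hs2, fun x => ?_, fun x => ?_⟩, fun x u v => ?_⟩
    · show aff (θ s) (lam t) ((a s ⟨1 - lam t, lam_mem' t⟩).symm
        (aff (θ s) (1 - lam t) ((a s ⟨lam t, lam_mem t⟩).symm x))) = x
      rw [← ha s ⟨1 - lam t, lam_mem' t⟩, Homeomorph.symm_apply_apply, ← ha s ⟨lam t, lam_mem t⟩,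
        Homeomorph.apply_symm_apply]
    · show aff (θ s) (1 - lam t) ((a s ⟨lam t, lam_mem t⟩).symm
        (aff (θ s) (lam t) ((a s ⟨1 - lam t, lam_mem' t⟩).symm x))) = x
      rw [← ha s ⟨lam t, lam_mem t⟩, Homeomorph.symm_apply_apply, ← ha s ⟨1 - lam t, lam_mem' t⟩,
        Homeomorph.apply_symm_apply]
    · set w := (a s ⟨lam t, lam_mem t⟩).symm x with hw
      have hx : aff (θ s) (lam t) w = x := by
        rw [← ha s ⟨lam t, lam_mem t⟩, hw, Homeomorph.apply_symm_apply]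
      obtain ⟨u', rfl⟩ := hsurj t s w u
      obtain ⟨v', rfl⟩ := hsurj t s w v
      rw [hder t s x w hx, hder t s x w hx]
      exact affD_omega (hsy s w) (lam t) u' v'
  · intro t s x m v hm hv
    set w := (a s ⟨lam t, lam_mem t⟩).symm x with hw
    have hx : aff (θ s) (lam t) w = x := by
      rw [← ha s ⟨lam t, lam_mem t⟩, hw, Homeomorph.apply_symm_apply]
    obtain ⟨u, rfl⟩ := hsurj t s w v
    rw [hder t s x w hx] at hv
    have hl := (lam_mem t).1
    have hl' := lam_half t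
    have h1 : 0 < (1 - lam t) - m * lam t := by nlinarith
    have h2 : 0 < lam t - m * (1 - lam t) := by nlinarith
    have h3 : ((1 - lam t) - m * lam t) • fderiv ℝ (θ s) w u =
        -((lam t - m * (1 - lam t)) • u) := by
      rw [affD_apply, affD_apply] at hv
      rw [← sub_eq_zero] at hv ⊢
      rw [← hv]
      module
    have h4 : u = 0 := by
      refine hneg s w (-((lam t - m * (1 - lam t)) / ((1 - lam t) - m * lam t))) u (by
        have := div_pos h2 h1
        linarith) ?_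
      have h5 : fderiv ℝ (θ s) w u = ((1 - lam t) - m * lam t)⁻¹ •
          (((1 - lam t) - m * lam t) • fderiv ℝ (θ s) w u) := by
        rw [smul_smul, inv_mul_cancel₀ h1.ne', one_smul]
      rw [h5, h3, smul_neg, smul_smul, neg_smul, div_eq_inv_mul]
    rw [h4, map_zero]
  · intro t s x hx
    have h1 : aff (θ s) (lam t) x = x := by
      show (1 - lam t) • x + lam t • θ s x = x
      rw [hx, ← add_smul, sub_add_cancel, one_smul]
    have h2 : (a s ⟨lam t, lam_mem t⟩).symm x = x := by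
      rw [Homeomorph.symm_apply_eq, ha, h1]
    show aff (θ s) (1 - lam t) ((a s ⟨lam t, lam_mem t⟩).symm x) = x
    rw [h2]
    show (1 - (1 - lam t)) • x + (1 - lam t) • θ s x = x
    rw [hx, ← add_smul, sub_add_cancel, one_smul]
  · intro s x
    have h0 : lam 0 = 1 / 2 := by
      unfold lam
      rw [Real.smoothTransition.zero]
      norm_num
    have h1 : (1 : ℝ) - lam 0 = lam 0 := by rw [h0]; norm_num
    show aff (θ s) (1 - lam 0) ((a s ⟨lam 0, lam_mem 0⟩).symm x) = x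
    rw [h1, ← ha s ⟨lam 0, lam_mem 0⟩, Homeomorph.apply_symm_apply]
  · intro s x
    have h0 : lam 1 = 0 := by
      unfold lam
      rw [Real.smoothTransition.one]
      norm_num
    have h1 : aff (θ s) (lam 1) x = x := by
      show (1 - lam 1) • x + lam 1 • θ s x = x
      rw [h0, sub_zero, one_smul, zero_smul, add_zero]
    have h2 : (a s ⟨lam 1, lam_mem 1⟩).symm x = x := by
      rw [Homeomorph.symm_apply_eq, ha, h1]
    show aff (θ s) (1 - lam 1) ((a s ⟨lam 1, lam_mem 1⟩).symm x) = θ s x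
    rw [h2]
    show (1 - (1 - lam 1)) • x + (1 - lam 1) • θ s x = θ s x
    rw [h0, sub_zero, sub_self, zero_smul, zero_add, one_smul]

/-- families in the group -/
theorem contract_group {P : Type*} [NormedAddCommGroup P] [NormedSpace ℝ P] [CompleteSpace P]
    (n : ℕ) (θ : P → SympCt n) (hθ : ContDiff ℝ ∞ (fun p : P × E n => (θ p.1).map p.2))
    (hneg : ∀ s x, NoNeg (fderiv ℝ (θ s).map x)) :
    ∃ Θ : ℝ → P → SympCt n, ContDiff ℝ ∞ (fun p : (ℝ × P) × E n => (Θ p.1.1 p.1.2).map p.2) ∧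
      (∀ s, Θ 0 s = 1) ∧ (∀ s, Θ 1 s = θ s) ∧ (∀ t s x, NoNeg (fderiv ℝ (Θ t s).map x)) ∧
      ∀ t s x, (θ s).map x = x → (Θ t s).map x = x := by
  rcases Nat.eq_zero_or_pos n with rfl | hn
  · have hsub : Subsingleton (E 0) := inferInstance
    refine ⟨fun _ _ => 1, ?_, fun _ => rfl, fun s => SympCt.ext (funext fun x =>
      Subsingleton.elim _ _), fun t s x m v _ _ => Subsingleton.elim _ _, fun _ _ _ _ => rfl⟩
    exact contDiff_snd
  · choose K hK hfix using fun s => (θ s).compactSupport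
    obtain ⟨Θ, h1, h2, h3, h4, h5, h6⟩ := contract hn (θ := fun s => (θ s).map) hθ
      (fun s => (θ s).isSymp.symplectic) hneg hK hfix
    refine ⟨fun t s => ⟨Θ t s, h2 t s, K s, hK s, fun x hx => h4 t s x (hfix s x hx)⟩, h1,
      fun s => SympCt.ext (funext fun x => h5 s x), fun s => SympCt.ext (funext fun x => h6 s x),
      h3, h4⟩

/-- two symplectomorphisms -/
theorem join_two {n : ℕ} (φ ψ : SympCt n)
    (h : ∀ (x v : E n) (m : ℝ), m < 0 → fderiv ℝ ψ.map x v = m • fderiv ℝ φ.map x v → v = 0) :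
    ∃ K : Set (E n), IsCompact K ∧ ∃ Φ : ℝ → E n → E n, IsIsotopy K Φ ∧ Φ 0 = φ.map ∧
      Φ 1 = ψ.map ∧ ∀ t x, φ.map x = ψ.map x → Φ t x = φ.map x := by
  have hdiff : ∀ (χ : SympCt n) x, HasFDerivAt χ.map (fderiv ℝ χ.map x) x := fun χ x =>
    (χ.isSymp.smooth.differentiable (by simp) x).hasFDerivAt
  have hneg : ∀ x, NoNeg (fderiv ℝ (ψ * φ⁻¹).map x) := by
    intro y m w hm hw
    -- `y = φ x`, `w = Dφ(x) v`
    obtain ⟨x, rfl⟩ : ∃ x, φ.map x = y := ⟨φ⁻¹.map y, map_inv_map φ y⟩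
    have d1 : HasFDerivAt ((ψ * φ⁻¹).map ∘ φ.map)
        ((fderiv ℝ (ψ * φ⁻¹).map (φ.map x)).comp (fderiv ℝ φ.map x)) x :=
      (hdiff _ _).comp x (hdiff _ _)
    have e1 : (ψ * φ⁻¹).map ∘ φ.map = ψ.map := by
      funext z
      show ψ.map (φ⁻¹.map (φ.map z)) = ψ.map z
      rw [inv_map_map]
    rw [e1] at d1
    have d2 := d1.unique (hdiff ψ x)
    obtain ⟨v, rfl⟩ : ∃ v, fderiv ℝ φ.map x v = w := by
      have d3 : HasFDerivAt (φ.map ∘ φ⁻¹.map)
          ((fderiv ℝ φ.map x).comp (fderiv ℝ φ⁻¹.map (φ.map x))) (φ.map x) := by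
        refine HasFDerivAt.comp (φ.map x) ?_ (hdiff _ _)
        rw [inv_map_map]
        exact hdiff _ _
      have e2 : φ.map ∘ φ⁻¹.map = id := funext fun z => map_inv_map φ z
      rw [e2] at d3
      exact ⟨fderiv ℝ φ⁻¹.map (φ.map x) w, DFunLike.congr_fun (d3.unique (hasFDerivAt_id _)) w⟩
    have h3 : fderiv ℝ ψ.map x v = m • fderiv ℝ φ.map x v := by
      rw [← d2]
      exact hw
    rw [h x v m hm h3, map_zero]
  obtain ⟨Θ, h1, h2, h3, h4, h5⟩ := contract_group (P := ℝ) n (fun _ => ψ * φ⁻¹)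
    ((ψ * φ⁻¹).isSymp.smooth.comp contDiff_snd) (fun _ => hneg)
  obtain ⟨K, hK, hφ⟩ := φ.compactSupport
  obtain ⟨L, hL, hψ⟩ := (ψ * φ⁻¹).compactSupport
  refine ⟨K ∪ L, hK.union hL, fun t x => (Θ t 0 * φ).map x, ⟨?_, fun t => (Θ t 0 * φ).isSymp,
    fun t x hx => ?_⟩, ?_, ?_, ?_⟩
  · exact h1.comp ((contDiff_fst.prodMk contDiff_const).prodMk
      (φ.isSymp.smooth.comp contDiff_snd))
  · rw [mem_union, not_or] at hx
    show (Θ t 0).map (φ.map x) = x
    rw [hφ x hx.1]
    exact h5 t 0 x (hψ x hx.2)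
  · funext x
    show (Θ 0 0).map (φ.map x) = φ.map x
    rw [h2]
    rfl
  · funext x
    show (Θ 1 0).map (φ.map x) = ψ.map x
    rw [h3]
    show ψ.map (φ⁻¹.map (φ.map x)) = ψ.map x
    rw [inv_map_map]
  · intro t x hx
    show (Θ t 0).map (φ.map x) = φ.map x
    apply h5
    show ψ.map (φ⁻¹.map (φ.map x)) = φ.map x
    rw [inv_map_map, hx]

end Pool.Agent.X277.Sy
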