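import Pool.Agent.H84.Sy.Defs

/-!
# Small representatives of the isotopy classes
-/

set_option autoImplicit false

open Set Filter Topology Metric Function
open scoped ContDiff NNReal

noncomputable section

namespace Pool.Agent.X277.Sy

variable {n : ℕ}

/-! ### Isotopy is an equivalence relation -/

theorem IsIsotopy.mono {K L : Set (E n)} (h : K ⊆ L) {Φ : ℝ → E n → E n} (hΦ : IsIsotopy K Φ) :
    IsIsotopy L Φ :=
  ⟨hΦ.smooth, hΦ.symp, fun t x hx => hΦ.supp t x fun h' => hx (h h')⟩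

theorem IsotopicIn.mono {K L : Set (E n)} (h : K ⊆ L) {φ ψ : SympCt n} (hi : IsotopicIn K φ ψ) :
    IsotopicIn L φ ψ := by
  obtain ⟨Φ, h1, h2, h3⟩ := hi
  exact ⟨Φ, h1.mono h, h2, h3⟩

theorem IsotopicIn.refl {K : Set (E n)} {φ : SympCt n} (h : SupportedIn K φ.map) :
    IsotopicIn K φ φ :=
  ⟨fun _ => φ.map, ⟨φ.isSymp.smooth.comp contDiff_snd, fun _ => φ.isSymp, fun _ => h⟩, rfl, rfl⟩

theorem IsotopicIn.symm {K : Set (E n)} {φ ψ : SympCt n} (h : IsotopicIn K φ ψ) :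
    IsotopicIn K ψ φ := by
  obtain ⟨Φ, h1, h2, h3⟩ := h
  refine ⟨fun t => Φ (1 - t), ⟨?_, fun t => h1.symp _, fun t => h1.supp _⟩, ?_, ?_⟩
  · exact h1.smooth.comp ((contDiff_const.sub contDiff_fst).prodMk contDiff_snd)
  · simp [h3]
  · simp [h2]

theorem IsotopicIn.left {K : Set (E n)} {φ ψ : SympCt n} (h : IsotopicIn K φ ψ) :
    SupportedIn K φ.map := by
  obtain ⟨Φ, h1, h2, h3⟩ := h
  rw [← h2]
  exact h1.supp 0

theorem IsotopicIn.mul {K : Set (E n)} {φ φ' ψ ψ' : SympCt n} (h : IsotopicIn K φ φ')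
    (h' : IsotopicIn K ψ ψ') : IsotopicIn K (φ * ψ) (φ' * ψ') := by
  obtain ⟨Φ, a1, a2, a3⟩ := h
  obtain ⟨Ψ, b1, b2, b3⟩ := h'
  refine ⟨fun t => Φ t ∘ Ψ t, ⟨?_, fun t => (a1.symp t).comp (b1.symp t), fun t x hx => ?_⟩, ?_, ?_⟩
  · exact a1.smooth.comp (contDiff_fst.prodMk b1.smooth)
  · show Φ t (Ψ t x) = x
    rw [b1.supp t x hx, a1.supp t x hx]
  · show Φ 0 ∘ Ψ 0 = φ.map ∘ ψ.map
    rw [a2, b2]
  · show Φ 1 ∘ Ψ 1 = φ'.map ∘ ψ'.map
    rw [a3, b3]

theorem supp_inv {K : Set (E n)} {φ : SympCt n} (h : SupportedIn K φ.map) :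
    SupportedIn K φ⁻¹.map := by
  intro x hx
  have h1 := inv_map_map φ x
  rwa [h x hx] at h1

theorem IsotopicIn.trans {K : Set (E n)} {φ ψ χ : SympCt n} (h : IsotopicIn K φ ψ)
    (h' : IsotopicIn K ψ χ) : IsotopicIn K φ χ := by
  have h1 := (h.mul (IsotopicIn.refl (supp_inv h'.left))).mul h'
  simpa using h1

theorem Isotopic.refl (φ : SympCt n) : Isotopic φ φ := by
  obtain ⟨K, hK, h⟩ := φ.compactSupport
  exact ⟨K, hK, IsotopicIn.refl h⟩

theorem Isotopic.symm {φ ψ : SympCt n} (h : Isotopic φ ψ) : Isotopic ψ φ := by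
  obtain ⟨K, hK, h⟩ := h
  exact ⟨K, hK, h.symm⟩

theorem Isotopic.mul {φ φ' ψ ψ' : SympCt n} (h : Isotopic φ φ') (h' : Isotopic ψ ψ') :
    Isotopic (φ * ψ) (φ' * ψ') := by
  obtain ⟨K, hK, h⟩ := h
  obtain ⟨L, hL, h'⟩ := h'
  exact ⟨K ∪ L, hK.union hL, (h.mono subset_union_left).mul (h'.mono subset_union_right)⟩

theorem Isotopic.trans {φ ψ χ : SympCt n} (h : Isotopic φ ψ) (h' : Isotopic ψ χ) :
    Isotopic φ χ := by
  obtain ⟨K, hK, h⟩ := h
  obtain ⟨L, hL, h'⟩ := h'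
  exact ⟨K ∪ L, hK.union hL, (h.mono subset_union_left).trans (h'.mono subset_union_right)⟩

theorem Isotopic.inv {φ ψ : SympCt n} (h : Isotopic φ ψ) : Isotopic φ⁻¹ ψ⁻¹ := by
  have h1 := ((Isotopic.refl ψ⁻¹).mul h).mul (Isotopic.refl φ⁻¹)
  simp only [mul_assoc, mul_inv_cancel, mul_one, inv_mul_cancel_left] at h1
  exact h1.symm

/-! ### Conjugation by homotheties and translations -/

/-- the conjugate of `φ` by `y ↦ a + s y` -/
def cj (a : E n) (s : ℝ) (φ : E n → E n) (x : E n) : E n := a + s • φ (s⁻¹ • (x - a))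

theorem cj_comp (a : E n) {s : ℝ} (hs : s ≠ 0) (φ ψ : E n → E n) (x : E n) :
    cj a s φ (cj a s ψ x) = cj a s (φ ∘ ψ) x := by
  simp only [cj, comp_apply, add_sub_cancel_left, smul_smul, inv_mul_cancel₀ hs, one_smul]

theorem cj_id (a : E n) {s : ℝ} (hs : s ≠ 0) (x : E n) : cj a s id x = x := by
  simp only [cj, id, smul_smul, mul_inv_cancel₀ hs, one_smul, add_sub_cancel]

theorem cj_fix (a : E n) {s : ℝ} (hs : s ≠ 0) {φ : E n → E n} {x : E n}
    (h : φ (s⁻¹ • (x - a)) = s⁻¹ • (x - a)) : cj a s φ x = x := by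
  rw [cj, h, smul_smul, mul_inv_cancel₀ hs, one_smul, add_sub_cancel]

theorem cj_smooth_joint {a : ℝ → E n} {s : ℝ → ℝ} (ha : ContDiff ℝ ∞ a) (hs : ContDiff ℝ ∞ s)
    (hs0 : ∀ t, s t ≠ 0) {Φ : ℝ → E n → E n} (hΦ : ContDiff ℝ ∞ (fun p : ℝ × E n => Φ p.1 p.2)) :
    ContDiff ℝ ∞ (fun p : ℝ × E n => cj (a p.1) (s p.1) (Φ p.1) p.2) := by
  have h1 : ContDiff ℝ ∞ (fun p : ℝ × E n => (s p.1)⁻¹ • (p.2 - a p.1)) :=
    ((hs.comp contDiff_fst).inv fun p => hs0 p.1).smul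
      (contDiff_snd.sub (ha.comp contDiff_fst))
  exact (ha.comp contDiff_fst).add ((hs.comp contDiff_fst).smul
    (hΦ.comp (contDiff_fst.prodMk h1)))

theorem cj_symp (a : E n) {s : ℝ} (hs : s ≠ 0) {φ : E n → E n} (h : IsSymplectomorphism φ) :
    IsSymplectomorphism (cj a s φ) := by
  have hsm : ∀ χ : E n → E n, ContDiff ℝ ∞ χ → ContDiff ℝ ∞ (cj a s χ) := by
    intro χ hχ
    have h1 : ContDiff ℝ ∞ (fun x : E n => s⁻¹ • (x - a)) :=
      (contDiff_id.sub contDiff_const).const_smul s⁻¹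
    exact contDiff_const.add ((hχ.comp h1).const_smul s)
  obtain ⟨χ, h1, h2, h3⟩ := h.inverse
  refine ⟨hsm φ h.smooth, ⟨cj a s χ, hsm χ h1, fun x => ?_, fun x => ?_⟩, fun x u v => ?_⟩
  · rw [cj_comp a hs, h2.comp_eq_id, cj_id a hs]
  · rw [cj_comp a hs, h3.comp_eq_id, cj_id a hs]
  · have hd0 : HasFDerivAt (fun x : E n => s⁻¹ • (x - a))
        (s⁻¹ • ContinuousLinearMap.id ℝ (E n)) x :=
      ((hasFDerivAt_id x).sub_const a).const_smul s⁻¹
    have hd1 : HasFDerivAt φ (fderiv ℝ φ (s⁻¹ • (x - a))) (s⁻¹ • (x - a)) :=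
      (h.smooth.differentiable (by simp) _).hasFDerivAt
    have hd2 := ((hd1.comp x hd0).const_smul s).const_add a
    have hd3 : fderiv ℝ (cj a s φ) x = s • (fderiv ℝ φ (s⁻¹ • (x - a))).comp
        (s⁻¹ • ContinuousLinearMap.id ℝ (E n)) := hd2.fderiv
    have hd4 : ∀ w, fderiv ℝ (cj a s φ) x w = fderiv ℝ φ (s⁻¹ • (x - a)) w := by
      intro w
      rw [hd3]
      show s • (fderiv ℝ φ (s⁻¹ • (x - a)) (s⁻¹ • w)) = _
      rw [map_smul, smul_smul, mul_inv_cancel₀ hs, one_smul]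
    rw [hd4, hd4]
    exact h.symplectic _ u v

/-- the affine image -/
def im (a : E n) (s : ℝ) (K : Set (E n)) : Set (E n) := (fun y => a + s • y) '' K

theorem cj_supp (a : E n) {s : ℝ} (hs : s ≠ 0) {φ : E n → E n} {K : Set (E n)}
    (h : SupportedIn K φ) : SupportedIn (im a s K) (cj a s φ) := by
  intro x hx
  apply cj_fix a hs
  apply h
  intro hK
  apply hx
  refine ⟨_, hK, ?_⟩
  show a + s • s⁻¹ • (x - a) = x
  rw [smul_smul, mul_inv_cancel₀ hs, one_smul, add_sub_cancel]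

/-- the conjugate as an element of the group -/
def cjG (a : E n) (s : ℝ) (hs : s ≠ 0) (φ : SympCt n) : SympCt n :=
  ⟨cj a s φ.map, cj_symp a hs φ.isSymp, by
    obtain ⟨K, hK, h⟩ := φ.compactSupport
    refine ⟨im a s K, hK.image (by fun_prop), cj_supp a hs h⟩⟩

theorem cj_path {a : ℝ → E n} {s : ℝ → ℝ} (ha : ContDiff ℝ ∞ a) (hs : ContDiff ℝ ∞ s)
    (hs0 : ∀ t, s t ≠ 0) {K L : Set (E n)} (hL : ∀ t, im (a t) (s t) K ⊆ L) {Φ : ℝ → E n → E n}
    (hΦ : IsIsotopy K Φ) : IsIsotopy L (fun t => cj (a t) (s t) (Φ t)) :=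
  ⟨cj_smooth_joint ha hs hs0 hΦ.smooth, fun t => cj_symp _ (hs0 t) (hΦ.symp t),
    fun t x hx => cj_supp _ (hs0 t) (hΦ.supp t) x fun h => hx (hL t h)⟩

/-- the path of homotheties and translations -/
theorem cj_isotopic {a : E n} {s : ℝ} (hs : 0 < s) {φ : SympCt n} {K L : Set (E n)}
    (hφ : SupportedIn K φ.map)
    (hL : ∀ r ∈ Icc (0 : ℝ) 1, im (r • a) (1 + r * (s - 1)) K ⊆ L) :
    IsotopicIn L φ (cjG a s hs.ne' φ) := by
  have hpos : ∀ r ∈ Icc (0 : ℝ) 1, 0 < 1 + r * (s - 1) := by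
    intro r hr
    rcases hr.1.eq_or_lt with h0 | h0
    · rw [← h0, zero_mul, add_zero]
      exact one_pos
    · have h1 : 0 < r * s := mul_pos h0 hs
      have h2 := hr.2
      have h3 : 1 + r * (s - 1) = (1 - r) + r * s := by ring
      rw [h3]
      linarith
  have hr : ∀ t, Real.smoothTransition t ∈ Icc (0 : ℝ) 1 := fun t =>
    ⟨Real.smoothTransition.nonneg t, Real.smoothTransition.le_one t⟩
  have h1 : ContDiff ℝ ∞ (fun t => Real.smoothTransition t • a) :=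
    Real.smoothTransition.contDiff.smul contDiff_const
  have h2 : ContDiff ℝ ∞ (fun t => 1 + Real.smoothTransition t * (s - 1)) :=
    contDiff_const.add (Real.smoothTransition.contDiff.mul contDiff_const)
  refine ⟨_, cj_path h1 h2 (fun t => (hpos _ (hr t)).ne') (fun t => hL _ (hr t))
    (Φ := fun _ => φ.map) ⟨φ.isSymp.smooth.comp contDiff_snd, fun _ => φ.isSymp, fun _ => hφ⟩,
    ?_, ?_⟩
  · funext x
    show cj (Real.smoothTransition 0 • a) (1 + Real.smoothTransition 0 * (s - 1)) φ.map x = φ.map x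
    rw [Real.smoothTransition.zero, zero_smul, zero_mul, add_zero]
    simp [cj]
  · funext x
    show cj (Real.smoothTransition 1 • a) (1 + Real.smoothTransition 1 * (s - 1)) φ.map x =
      cj a s φ.map x
    rw [Real.smoothTransition.one, one_smul, one_mul, add_sub_cancel]

/-! ### Supports in open sets -/

/-- `φ` has compact support in `U`. -/
def SupportedWithin (U : Set (E n)) (φ : SympCt n) : Prop :=
  ∃ K : Set (E n), IsCompact K ∧ K ⊆ U ∧ SupportedIn K φ.map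

/-- `φ` and `ψ` are joined by a smooth path of symplectomorphisms, all supported in one compact
subset of `U`. -/
def IsotopicWithin (U : Set (E n)) (φ ψ : SympCt n) : Prop :=
  ∃ K : Set (E n), IsCompact K ∧ K ⊆ U ∧ IsotopicIn K φ ψ

theorem IsotopicWithin.isotopic {U : Set (E n)} {φ ψ : SympCt n} (h : IsotopicWithin U φ ψ) :
    Isotopic φ ψ := by
  obtain ⟨K, hK, _, h⟩ := h
  exact ⟨K, hK, h⟩

/-- the track of a compact set under the homotheties -/
def track (a : E n) (s : ℝ) (K : Set (E n)) : Set (E n) :=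
  (fun q : ℝ × E n => q.1 • a + (1 + q.1 * (s - 1)) • q.2) '' (Icc (0 : ℝ) 1 ×ˢ K)

theorem track_compact (a : E n) (s : ℝ) {K : Set (E n)} (hK : IsCompact K) :
    IsCompact (track a s K) :=
  (isCompact_Icc.prod hK).image (by fun_prop)

theorem im_subset_track (a : E n) (s : ℝ) (K : Set (E n)) {r : ℝ} (hr : r ∈ Icc (0 : ℝ) 1) :
    im (r • a) (1 + r * (s - 1)) K ⊆ track a s K := by
  rintro _ ⟨y, hy, rfl⟩
  exact ⟨(r, y), ⟨hr, hy⟩, rfl⟩

theorem track_subset {U : Set (E n)} {p : E n} (hU : StarConvex ℝ p U) {s : ℝ} (hs : 0 < s)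
    (hs1 : s ≤ 1) {K : Set (E n)} (hK : K ⊆ U) : track ((1 - s) • p) s K ⊆ U := by
  rintro _ ⟨⟨r, y⟩, ⟨hr, hy⟩, rfl⟩
  show r • (1 - s) • p + (1 + r * (s - 1)) • y ∈ U
  rw [smul_smul]
  have hr0 : 0 ≤ r := hr.1
  have hr1 : r ≤ 1 := hr.2
  exact hU (hK hy) (mul_nonneg hr0 (by linarith)) (by nlinarith) (by ring)

theorem cj_isotopic' {a : E n} {s : ℝ} (hs : 0 < s) {φ : SympCt n} {K : Set (E n)}
    (hφ : SupportedIn K φ.map) : IsotopicIn (track a s K) φ (cjG a s hs.ne' φ) :=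
  cj_isotopic hs hφ fun _ hr => im_subset_track a s K hr

theorem exists_radius {K : Set (E n)} (hK : IsCompact K) (p : E n) :
    ∃ R : ℝ, 0 < R ∧ K ⊆ closedBall p R := by
  obtain ⟨R, hR⟩ := hK.isBounded.subset_closedBall p
  exact ⟨max R 1, lt_max_of_lt_right one_pos, hR.trans (closedBall_subset_closedBall (le_max_left _ _))⟩

theorem im_ball {p : E n} {s R : ℝ} (hs : 0 < s) {K : Set (E n)} (hK : K ⊆ closedBall p R) :
    im ((1 - s) • p) s K ⊆ closedBall p (s * R) := by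
  rintro _ ⟨y, hy, rfl⟩
  rw [mem_closedBall, dist_eq_norm]
  have h1 : (1 - s) • p + s • y - p = s • (y - p) := by module
  show ‖(1 - s) • p + s • y - p‖ ≤ s * R
  rw [h1, norm_smul, Real.norm_eq_abs, abs_of_pos hs]
  have h2 := hK hy
  rw [mem_closedBall, dist_eq_norm] at h2
  exact mul_le_mul_of_nonneg_left h2 hs.le

/-- the scale -/
theorem exists_scale {K : Set (E n)} (hK : IsCompact K) {U : Set (E n)} (hU : IsOpen U) {p : E n}
    (hp : p ∈ U) : ∃ s : ℝ, 0 < s ∧ s ≤ 1 ∧ ∃ L : Set (E n), IsCompact L ∧ L ⊆ U ∧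
      im ((1 - s) • p) s K ⊆ L := by
  obtain ⟨ε, hε, hεU⟩ := nhds_basis_closedBall.mem_iff.1 (hU.mem_nhds hp)
  obtain ⟨R, hR, hKR⟩ := exists_radius hK p
  refine ⟨min 1 (ε / R), lt_min one_pos (div_pos hε hR), min_le_left _ _, closedBall p ε,
    isCompact_closedBall p ε, hεU, (im_ball (lt_min one_pos (div_pos hε hR)) hKR).trans
    (closedBall_subset_closedBall ?_)⟩
  calc min 1 (ε / R) * R ≤ ε / R * R := mul_le_mul_of_nonneg_right (min_le_right _ _) hR.le
    _ = ε := by field_simp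

/-- **Theorem A.** -/
theorem exists_small {U : Set (E n)} (hU : IsOpen U) (hne : U.Nonempty) (φ : SympCt n) :
    ∃ ψ : SympCt n, SupportedWithin U ψ ∧ Isotopic φ ψ := by
  obtain ⟨p, hp⟩ := hne
  obtain ⟨K, hK, hφ⟩ := φ.compactSupport
  obtain ⟨s, hs, hs1, L, hL, hLU, him⟩ := exists_scale hK hU hp
  refine ⟨cjG ((1 - s) • p) s hs.ne' φ, ⟨L, hL, hLU, fun x hx => ?_⟩,
    ⟨_, track_compact _ _ hK, cj_isotopic' hs hφ⟩⟩
  exact cj_supp _ hs.ne' hφ x fun h => hx (him h)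

/-- **Theorem B.** -/
theorem isotopicWithin_of_isotopic {U : Set (E n)} (hU : IsOpen U) {p : E n} (hp : p ∈ U)
    (hstar : StarConvex ℝ p U) {φ ψ : SympCt n} (hφ : SupportedWithin U φ)
    (hψ : SupportedWithin U ψ) (h : Isotopic φ ψ) : IsotopicWithin U φ ψ := by
  obtain ⟨K, hK, Φ, hΦ, h0, h1⟩ := h
  obtain ⟨K₁, hK₁, hK₁U, hφ⟩ := hφ
  obtain ⟨K₂, hK₂, hK₂U, hψ⟩ := hψ
  obtain ⟨s, hs, hs1, L, hL, hLU, him⟩ := exists_scale hK hU hp
  have a1 : IsotopicIn (track ((1 - s) • p) s K₁) φ (cjG ((1 - s) • p) s hs.ne' φ) :=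
    cj_isotopic' hs hφ
  have a2 : IsotopicIn (track ((1 - s) • p) s K₂) ψ (cjG ((1 - s) • p) s hs.ne' ψ) :=
    cj_isotopic' hs hψ
  have a3 : IsotopicIn L (cjG ((1 - s) • p) s hs.ne' φ) (cjG ((1 - s) • p) s hs.ne' ψ) := by
    refine ⟨_, cj_path (a := fun _ => (1 - s) • p) (s := fun _ => s) contDiff_const contDiff_const
      (fun _ => hs.ne') (fun _ => him) hΦ, ?_, ?_⟩
    · show cj _ s (Φ 0) = cj _ s φ.map
      rw [h0]
    · show cj _ s (Φ 1) = cj _ s ψ.map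
      rw [h1]
  refine ⟨track ((1 - s) • p) s K₁ ∪ L ∪ track ((1 - s) • p) s K₂,
    ((track_compact _ _ hK₁).union hL).union (track_compact _ _ hK₂),
    union_subset (union_subset (track_subset hstar hs hs1 hK₁U) hLU)
      (track_subset hstar hs hs1 hK₂U), ?_⟩
  refine IsotopicIn.trans (a1.mono ?_) (IsotopicIn.trans (a3.mono ?_) (a2.symm.mono ?_))
  · exact subset_union_left.trans subset_union_left
  · exact subset_union_right.trans subset_union_left
  · exact subset_union_right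

/-- disjoint supports commute -/
theorem comm_of_disjoint {K L : Set (E n)} {φ ψ : SympCt n} (hφ : SupportedIn K φ.map)
    (hψ : SupportedIn L ψ.map) (hd : Disjoint K L) : φ * ψ = ψ * φ := by
  have key : ∀ (K L : Set (E n)) (φ ψ : SympCt n), SupportedIn K φ.map → SupportedIn L ψ.map →
      Disjoint K L → ∀ x, x ∉ L → φ.map (ψ.map x) = ψ.map (φ.map x) := by
    intro K L φ ψ hφ hψ hd x hx
    rw [hψ x hx]
    by_cases hK : x ∈ K
    · have h1 : φ.map x ∈ K := by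
        by_contra hn
        have h2 := hφ _ hn
        have h3 : φ.map x = x := by
          have := congrArg φ⁻¹.map h2
          rwa [inv_map_map, inv_map_map] at this
        rw [h3] at hn
        exact hn hK
      rw [hψ _ (disjoint_left.1 hd h1)]
    · rw [hφ x hK, hψ x hx]
  apply SympCt.ext
  funext x
  show φ.map (ψ.map x) = ψ.map (φ.map x)
  by_cases hx : x ∈ L
  · exact (key L K ψ φ hψ hφ hd.symm x fun h => disjoint_left.1 hd h hx).symm
  · exact key K L φ ψ hφ hψ hd x hx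

/-- **Theorem C.** -/
theorem comm_isotopic (φ ψ : SympCt n) : Isotopic (φ * ψ) (ψ * φ) := by
  rcases Nat.eq_zero_or_pos n with rfl | hn
  · have : Subsingleton (E 0) := inferInstance
    have : φ * ψ = ψ * φ := SympCt.ext (funext fun x => Subsingleton.elim _ _)
    rw [this]
    exact Isotopic.refl _
  · have : Nonempty (Fin n × Fin 2) := ⟨(⟨0, hn⟩, 0)⟩
    obtain ⟨K, hK, hφ⟩ := φ.compactSupport
    obtain ⟨L, hL, hψ⟩ := ψ.compactSupport
    obtain ⟨R, hR, hKR⟩ := exists_radius hK 0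
    obtain ⟨R', hR', hLR⟩ := exists_radius hL 0
    obtain ⟨a, ha⟩ := NormedSpace.exists_lt_norm ℝ (E n) (R + R')
    have h1 : Isotopic φ (cjG a 1 one_ne_zero φ) :=
      ⟨_, track_compact _ _ hK, cj_isotopic' one_pos hφ⟩
    have h2 : cjG a 1 one_ne_zero φ * ψ = ψ * cjG a 1 one_ne_zero φ := by
      refine comm_of_disjoint (cj_supp a one_ne_zero hφ) hψ ?_
      rw [disjoint_left]
      rintro _ ⟨y, hy, rfl⟩ hz
      have h3 := hKR hy
      have h4 := hLR hz
      rw [mem_closedBall, dist_zero_right] at h3 h4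
      simp only [one_smul] at h4
      have h5 : ‖a‖ ≤ ‖a + y‖ + ‖y‖ := by
        have := norm_sub_le (a + y) y
        rwa [add_sub_cancel_right] at this
      linarith
    have h3 := h1.mul (Isotopic.refl ψ)
    have h4 := (Isotopic.refl ψ).mul h1
    rw [h2] at h3
    exact h3.trans h4.symm

/-- **Theorem D.** -/
theorem dense (φ : SympCt n) (p : E n) {ε : ℝ} (hε : 0 < ε) :
    ∃ ψ : SympCt n, Isotopic ψ 1 ∧ (∀ x, x ∉ ball p ε → ψ.map x = φ.map x) ∧
      ∀ x, dist (ψ.map x) (φ.map x) ≤ ε := by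
  have hc : Continuous φ.map := φ.isSymp.smooth.continuous
  obtain ⟨δ, hδ, hδε⟩ := Metric.continuous_iff.1 hc p (ε / 2) (by linarith)
  have hU : IsOpen (ball p (min ε δ)) := isOpen_ball
  obtain ⟨χ, ⟨K, hK, hKU, hχ⟩, hi⟩ := exists_small hU
    ⟨p, mem_ball_self (lt_min hε hδ)⟩ φ
  have hχi := supp_inv hχ
  refine ⟨φ * χ⁻¹, ?_, fun x hx => ?_, fun x => ?_⟩
  · have := hi.mul (Isotopic.refl χ⁻¹)
    rwa [mul_inv_cancel] at this
  · show φ.map (χ⁻¹.map x) = φ.map x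
    rw [hχi x fun h => hx (ball_subset_ball (min_le_left _ _) (hKU h))]
  · show dist (φ.map (χ⁻¹.map x)) (φ.map x) ≤ ε
    by_cases hx : x ∈ K
    · have h1 : χ⁻¹.map x ∈ K := by
        by_contra hn
        have h2 := hχ _ hn
        rw [map_inv_map] at h2
        rw [← h2] at hn
        exact hn hx
      have h3 := hδε _ (mem_ball.1 (ball_subset_ball (min_le_right _ _) (hKU h1)))
      have h4 := hδε _ (mem_ball.1 (ball_subset_ball (min_le_right _ _) (hKU hx)))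
      calc dist (φ.map (χ⁻¹.map x)) (φ.map x)
          ≤ dist (φ.map (χ⁻¹.map x)) (φ.map p) + dist (φ.map x) (φ.map p) := dist_triangle_right _ _ _
        _ ≤ ε := by linarith
    · rw [hχi x hx, dist_self]
      exact hε.le

end Pool.Agent.X277.Sy
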