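import Pool.Agent.H84.Sy.Neg
import Pool.Agent.H84.Sy.Small

/-!
# The isotopy classes are the components
-/

set_option autoImplicit false

open Set Filter Topology Metric Function
open scoped ContDiff NNReal

noncomputable section

namespace Pool.Agent.X277.Sy

variable {n : ℕ}

theorem isotopic_of_close (φ ψ : SympCt n) (h : ∀ x v : E n, v ≠ 0 →
    ‖fderiv ℝ ψ.map x v - fderiv ℝ φ.map x v‖ < ‖fderiv ℝ φ.map x v‖) : Isotopic φ ψ := by
  obtain ⟨K, hK, Φ, a, b, c, _⟩ := join_two φ ψ (by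
    intro x v m hm hv
    by_contra hv0
    have h2 := h x v hv0
    rw [hv] at h2
    have h3 : m • fderiv ℝ φ.map x v - fderiv ℝ φ.map x v = (m - 1) • fderiv ℝ φ.map x v := by
      rw [sub_smul, one_smul]
    rw [h3, norm_smul, Real.norm_eq_abs, abs_of_neg (by linarith)] at h2
    have h4 := norm_nonneg (fderiv ℝ φ.map x v)
    nlinarith)
  exact ⟨K, hK, Φ, a, b, c⟩

theorem hasFDerivAt_map (χ : SympCt n) (x : E n) : HasFDerivAt χ.map (fderiv ℝ χ.map x) x :=
  (χ.isSymp.smooth.differentiable (by simp) x).hasFDerivAt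

/-- the derivative off the support -/
theorem fderiv_off {K : Set (E n)} (hK : IsCompact K) {φ : SympCt n} (h : SupportedIn K φ.map)
    {x : E n} (hx : x ∉ K) : fderiv ℝ φ.map x = ContinuousLinearMap.id ℝ (E n) := by
  have h1 : φ.map =ᶠ[𝓝 x] id := by
    filter_upwards [hK.isClosed.isOpen_compl.mem_nhds hx] with z hz
    exact h z hz
  rw [h1.fderiv_eq, fderiv_id]

theorem fderiv_bound (φ : SympCt n) : ∃ M : ℝ, 0 < M ∧ ∀ x, ‖fderiv ℝ φ.map x‖ ≤ M := by
  obtain ⟨K, hK, h⟩ := φ.compactSupport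
  have hc : Continuous (fun y => ‖fderiv ℝ φ.map y‖) :=
    (φ.isSymp.smooth.continuous_fderiv (by simp)).norm
  obtain ⟨C, hC⟩ := hK.bddAbove_image hc.continuousOn
  refine ⟨max C 1, lt_max_of_lt_right one_pos, fun x => ?_⟩
  by_cases hx : x ∈ K
  · exact (hC ⟨x, hx, rfl⟩).trans (le_max_left _ _)
  · rw [fderiv_off hK h hx]
    exact ContinuousLinearMap.norm_id_le.trans (le_max_right _ _)

theorem fderiv_lower (φ : SympCt n) : ∃ M : ℝ, 0 < M ∧ ∀ x v, ‖v‖ ≤ M * ‖fderiv ℝ φ.map x v‖ := by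
  obtain ⟨M, hM, h⟩ := fderiv_bound φ⁻¹
  refine ⟨M, hM, fun x v => ?_⟩
  have h1 := (hasFDerivAt_map φ⁻¹ (φ.map x)).comp x (hasFDerivAt_map φ x)
  have h2 : φ⁻¹.map ∘ φ.map = id := funext fun z => inv_map_map φ z
  rw [h2] at h1
  have h3 := DFunLike.congr_fun (h1.unique (hasFDerivAt_id x)) v
  have h4 : fderiv ℝ φ⁻¹.map (φ.map x) (fderiv ℝ φ.map x v) = v := h3
  calc ‖v‖ = ‖fderiv ℝ φ⁻¹.map (φ.map x) (fderiv ℝ φ.map x v)‖ := by rw [h4]
    _ ≤ ‖fderiv ℝ φ⁻¹.map (φ.map x)‖ * ‖fderiv ℝ φ.map x v‖ :=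
        (fderiv ℝ φ⁻¹.map (φ.map x)).le_opNorm _
    _ ≤ M * ‖fderiv ℝ φ.map x v‖ := mul_le_mul_of_nonneg_right (h _) (norm_nonneg _)

/-- isotopy classes are open -/
theorem isOpen_class (φ : SympCt n) : IsOpen {ψ : SympCt n | Isotopic φ ψ} := by
  rw [isOpen_iSup_iff]
  rintro ⟨K, hK⟩
  rw [isOpen_coinduced, isOpen_iff_mem_nhds]
  intro χ hχ
  obtain ⟨M, hM, hlow⟩ := fderiv_lower (incl ⟨K, hK⟩ χ)
  have hc : Continuous (jet (n := n) (K := K) 1) :=
    continuous_iff_le_induced.2 (iInf_le _ 1)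
  have h1 := (ContinuousMap.tendsto_iff_forall_isCompact_tendstoUniformlyOn
    (F := jet (n := n) (K := K) 1) (f := jet 1 χ) (p := 𝓝 χ)).1 hc.continuousAt K hK
  have h2 := Metric.tendstoUniformlyOn_iff.1 h1 (1 / M) (by positivity)
  filter_upwards [h2] with χ' hχ'
  refine Isotopic.trans hχ (isotopic_of_close _ _ fun x v hv => ?_)
  have hv' : 0 < ‖v‖ := norm_pos_iff.2 hv
  have h3 := hlow x v
  have h4 : 0 < ‖fderiv ℝ (incl ⟨K, hK⟩ χ).map x v‖ := by
    by_contra h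
    have : M * ‖fderiv ℝ (incl ⟨K, hK⟩ χ).map x v‖ ≤ 0 :=
      mul_nonpos_of_nonneg_of_nonpos hM.le (not_lt.1 h)
    linarith
  by_cases hx : x ∈ K
  · have h5 := hχ' x hx
    rw [dist_eq_norm, norm_sub_rev] at h5
    have h6 : ‖fderiv ℝ (incl ⟨K, hK⟩ χ').map x v - fderiv ℝ (incl ⟨K, hK⟩ χ).map x v‖ ≤
        ‖jet 1 χ' x - jet 1 χ x‖ * ‖v‖ := by
      have h7 := (jet 1 χ' x - jet 1 χ x).le_opNorm (fun _ => v)
      have h8 : (jet 1 χ' x - jet 1 χ x) (fun _ => v) =
          fderiv ℝ (incl ⟨K, hK⟩ χ').map x v - fderiv ℝ (incl ⟨K, hK⟩ χ).map x v := by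
        rw [sub_apply]
        show iteratedFDeriv ℝ 1 χ'.map x (fun _ => v) - iteratedFDeriv ℝ 1 χ.map x (fun _ => v) = _
        rw [iteratedFDeriv_one_apply, iteratedFDeriv_one_apply]
        rfl
      rw [h8] at h7
      simpa using h7
    calc ‖fderiv ℝ (incl ⟨K, hK⟩ χ').map x v - fderiv ℝ (incl ⟨K, hK⟩ χ).map x v‖
        ≤ ‖jet 1 χ' x - jet 1 χ x‖ * ‖v‖ := h6
      _ < 1 / M * ‖v‖ := mul_lt_mul_of_pos_right h5 hv'
      _ ≤ 1 / M * (M * ‖fderiv ℝ (incl ⟨K, hK⟩ χ).map x v‖) :=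
          mul_le_mul_of_nonneg_left h3 (by positivity)
      _ = ‖fderiv ℝ (incl ⟨K, hK⟩ χ).map x v‖ := by field_simp
  · have h5 : fderiv ℝ (incl ⟨K, hK⟩ χ').map x = ContinuousLinearMap.id ℝ (E n) :=
      fderiv_off hK χ'.supported hx
    have h6 : fderiv ℝ (incl ⟨K, hK⟩ χ).map x = ContinuousLinearMap.id ℝ (E n) :=
      fderiv_off hK χ.supported hx
    rw [h5, h6, sub_self, norm_zero]
    rw [h6] at h4
    exact h4

theorem isClopen_class (φ : SympCt n) : IsClopen {ψ : SympCt n | Isotopic φ ψ} := by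
  refine ⟨⟨?_⟩, isOpen_class φ⟩
  rw [isOpen_iff_forall_mem_open]
  intro χ hχ
  refine ⟨{ψ | Isotopic χ ψ}, fun ψ hψ hn => hχ (Isotopic.trans hn (Isotopic.symm hψ)),
    isOpen_class χ, Isotopic.refl χ⟩

theorem joined_iff (φ ψ : SympCt n) : Joined φ ψ ↔ Isotopic φ ψ := by
  refine ⟨fun h => ?_, Isotopic.joined⟩
  have h1 : ψ ∈ pathComponent φ := h
  have h2 := pathComponent_subset_component φ h1
  exact (isClopen_class φ).connectedComponent_subset (Isotopic.refl φ) h2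

theorem component_eq (φ : SympCt n) : connectedComponent φ = {ψ | Isotopic φ ψ} := by
  refine Subset.antisymm ((isClopen_class φ).connectedComponent_subset (Isotopic.refl φ)) ?_
  intro ψ hψ
  exact pathComponent_subset_component φ (show ψ ∈ pathComponent φ from Isotopic.joined hψ)

/-! ### Isotopies without support conditions act trivially -/

theorem conj_isotopic {h : ℝ → E n → E n} (hs : ContDiff ℝ ∞ (fun p : ℝ × E n => h p.1 p.2))
    (hsy : ∀ t, IsSymplectomorphism (h t)) (h0 : h 0 = id) (φ ψ : SympCt n)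
    (hψ : ∀ x, ψ.map (h 1 x) = h 1 (φ.map x)) : Isotopic φ ψ := by
  choose g hg1 hg2 hg3 using fun t => (hsy t).inverse
  have hinj : ∀ t x, Injective (fderiv ℝ (h t) x) := fun t x =>
    (injective_iff_map_eq_zero _).2 fun u hu => symp_inj ((hsy t).symplectic x) hu
  have hgs : ContDiff ℝ ∞ (fun p : ℝ × E n => g p.1 p.2) := by
    refine joint_inverse hs (fun t x => (LinearEquiv.ofInjectiveEndo
      (fderiv ℝ (h t) x : E n →ₗ[ℝ] E n) (hinj t x)).toContinuousLinearEquiv) ?_ ?_ ?_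
    · intro t x
      have := (((hsy t).smooth).differentiable (by simp) x).hasFDerivAt
      refine this.congr_fderiv ?_
      ext v
      rfl
    · intro t x
      exact hg2 t x
    · intro t x
      exact hg3 t x
  obtain ⟨K, hK, hφ⟩ := φ.compactSupport
  have hσ : ContDiff ℝ ∞ (fun p : ℝ × E n => Real.smoothTransition p.1) :=
    Real.smoothTransition.contDiff.comp contDiff_fst
  have hr : ∀ t, Real.smoothTransition t ∈ Icc (0 : ℝ) 1 := fun t =>
    ⟨Real.smoothTransition.nonneg t, Real.smoothTransition.le_one t⟩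
  have hg0 : ∀ x, g 0 x = x := by
    intro x
    have h2 := hg3 0 x
    rw [h0] at h2
    exact h2
  refine ⟨(fun p : ℝ × E n => h p.1 p.2) '' (Icc (0 : ℝ) 1 ×ˢ K),
    (isCompact_Icc.prod hK).image hs.continuous,
    fun t x => h (Real.smoothTransition t) (φ.map (g (Real.smoothTransition t) x)), ⟨?_, ?_, ?_⟩,
    ?_, ?_⟩
  · exact hs.comp (hσ.prodMk (φ.isSymp.smooth.comp (hgs.comp (hσ.prodMk contDiff_snd))))
  · intro t
    exact (hsy _).comp (φ.isSymp.comp ((hsy _).of_inverse (hg1 _) (hg2 _) (hg3 _)))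
  · intro t x hx
    have h1 : g (Real.smoothTransition t) x ∉ K := by
      intro hK'
      apply hx
      exact ⟨(Real.smoothTransition t, g (Real.smoothTransition t) x), ⟨hr t, hK'⟩, hg3 _ x⟩
    show h (Real.smoothTransition t) (φ.map (g (Real.smoothTransition t) x)) = x
    rw [hφ _ h1]
    exact hg3 _ x
  · funext x
    show h (Real.smoothTransition 0) (φ.map (g (Real.smoothTransition 0) x)) = φ.map x
    rw [Real.smoothTransition.zero, hg0, h0]
    rfl
  · funext x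
    show h (Real.smoothTransition 1) (φ.map (g (Real.smoothTransition 1) x)) = ψ.map x
    rw [Real.smoothTransition.one, ← hψ, hg3]

end Pool.Agent.X277.Sy
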